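import Pool.Agent.R341.Uni17

set_option autoImplicit false

namespace Pool.Agent.Results.MP_bdab2f_nt.InfiniteLevelSets

open Pool.Agent.R341.Uni

/-- The smallest univoque base function `q_s(x) = inf U(x)`, where
`Ux x = {q | 1 < q ∧ q ≤ 2 ∧ x has exactly one q-expansion}`. -/
noncomputable def qs (x : ℝ) : ℝ := sInf (Ux x)

/-- The level set of `q_s` at `q`. -/
def L (q : ℝ) : Set ℝ := {x | 0 < x ∧ qs x = q}

/-- The largest value of `q_s` on `(0, ∞)`. -/
noncomputable def qmax : ℝ := sSup (qs '' Set.Ioi 0)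

/-- De Vries–Komornik numbers: right endpoints `q` of bounded components `(q₀, q)` of the
complement of the closure of `U = U(1)`. -/
def IsDVK (q : ℝ) : Prop := ∃ q₀ : ℝ, q₀ < q ∧ q₀ ∈ closure (Ux 1) ∧ q ∈ closure (Ux 1) ∧
  Set.Ioo q₀ q ∩ closure (Ux 1) = ∅

/-- `q_s` is bounded above (by `1.88847`) and, for every de Vries–Komornik number `q ≤ q_max`, the
level set `L(q)` is uncountable, in particular infinite. -/
theorem result : BddAbove (qs '' Set.Ioi 0) ∧
    ∀ q : ℝ, IsDVK q → q ≤ qmax → ¬ (L q).Countable := by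
  refine ⟨⟨(BB : ℝ), ?_⟩, ?_⟩
  · rintro _ ⟨x, hx, rfl⟩
    obtain ⟨q', h1, h2⟩ := F1 hx
    exact (csInf_le (bdd_Ux x) h1).trans h2
  · rintro q ⟨q₀, hq₀, _, hqc, hiso⟩ hle
    have hiso' : Set.Ioo q₀ q ∩ Ux 1 = ∅ := by
      rw [← Set.subset_empty_iff, ← hiso]
      exact Set.inter_subset_inter_right _ subset_closure
    exact level_all hq₀ (mem_of_isolated hq₀ hqc hiso') hiso' hle

end Pool.Agent.Results.MP_bdab2f_nt.InfiniteLevelSets
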